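import Pool.Agent.Q131.FB.Main
import Pool.Agent.Q131.FB.FB1
import Pool.Agent.Q131.FB.FB5
import Pool.Agent.Q104.FB.All

/-!
# The largest bounded position of flip sequences is `⌊(k - 1) / 3⌋ = ⌈k / 3⌉ - 1`

Upper bound: count triangles by the number of edges in the first `q` colours.  Lower bound: the
lexicographic product of a cube in large colours with a cube in small colours, times a cube.
-/

namespace Pool.Agent.Results.MP_1aba1b_co.BoundedPositions

open Q131.Flip

/-- Position `q` (counted from 1) is bounded for `k` colours: `1 ≤ q ≤ k - 1` and there is a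
positive integer `h` such that for every `N` some `k`-flip sequence `(a_1, ..., a_k)` has `a_q = h`
and `a_k > N`. -/
def IsBoundedPosition (k q : ℕ) : Prop :=
  1 ≤ q ∧ q ≤ k - 1 ∧ ∃ h : ℕ, 0 < h ∧ ∀ N : ℕ, ∃ a : Fin k → ℕ, IsFlipSequence a ∧
    (∀ i : Fin k, i.val + 1 = q → a i = h) ∧ (∀ i : Fin k, i.val + 1 = k → N < a i)

/-- For every `k ≥ 4` the largest bounded position is `q(k) = ⌊(k - 1) / 3⌋`. -/
theorem result (k : ℕ) (hk : 4 ≤ k) :
    IsGreatest {q : ℕ | IsBoundedPosition k q} ((k - 1) / 3) :=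
  Q131.FB.main Q131.FB.flip' Pool.Agent.Q104.FB.prod
    (Pool.Agent.Q104.FB.cube Pool.Agent.Q104.FB.prod) Pool.Agent.Q104.FB.lex Q131.FB.upper k hk

end Pool.Agent.Results.MP_1aba1b_co.BoundedPositions
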